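import Pool.Agent.H75.L.W662.CB.All2
import Pool.Agent.H75.L.W29.CB.Main
import Pool.Agent.H75.L.W67.WD.CMP
import Pool.Agent.H75.L.W196.WD.CPT
import Pool.Agent.H75.L.W395.WD.LOC
import Pool.Agent.H75.L.W978.WD.ZSUM
import Pool.Agent.H75.L8.H770R2.Kad.Kap
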